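import Pool.Agent.Q189.MW6

/-!
# Monotonic mean width preserving symmetrizations and orthogonal translations

`Q189.MW.E n` is Euclidean space. For a subspace `H` of dimension `i ≤ n - 2` and for `𝓑` the class
of nonempty compact convex sets or the class of convex bodies, there is a symmetrization
`𝓑 → 𝓑_H` which is monotonic, mean width preserving and invariant on `H`-symmetric sets but not
invariant under translations orthogonal to `H` of `H`-symmetric sets if and only if `i = 0`.
The definitions are in `Pool.Agent.Q189.MWDefs`.
-/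

set_option autoImplicit false

namespace Pool.Agent.Results.MP_182b9e_gt.OnlyForTheOrigin

open Q189.MW Module

theorem result (n i : ℕ) (hn : 2 ≤ n) (hi : i ≤ n - 2) (H : Submodule ℝ (E n))
    (hH : finrank ℝ H = i) (𝓑 : Set (Set (E n)))
    (h𝓑 : 𝓑 = compactConvex n ∨ 𝓑 = convexBodies n) :
    (∃ D : Set (E n) → Set (E n), MonotonicWidthPreserving 𝓑 H D ∧
      ¬ OrthogonalTranslationInvariant 𝓑 H D) ↔ i = 0 := by
  constructor
  · rintro ⟨D, hD, hnot⟩
    by_contra h0
    refine hnot (invariant ?_ h𝓑 hD)
    rintro rfl
    rw [finrank_bot] at hH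
    exact h0 hH.symm
  · rintro rfl
    have h0 : H = ⊥ := Submodule.finrank_eq_zero.1 hH
    subst h0
    exact exotic hn h𝓑

end Pool.Agent.Results.MP_182b9e_gt.OnlyForTheOrigin
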